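import Mathlib
import Pool.Agent.TH676.CK.Exist
import Pool.Agent.Q316.KC.Triv

/-!
MP_616e01_lc, Q1: every C-trivial measure on Cantor space is K-trivial.

`U` is any optimal plain machine and `V` any optimal prefix-free machine, so that `cx U` is plain
complexity `C` and `cx V` is prefix-free complexity `K` (`Pool.Agent.TH676.CK.OptPlain`, `OptPFree`,
`cx`).  The natural number `n` is identified with the string `natStr n` in the usual
(length-lexicographic) way, and `avg μ f n` is the sum over the strings `x` of length `n` of
`μ[x] * f x`.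
-/

set_option autoImplicit false
open MeasureTheory

namespace Pool.Agent.Results.MP_616e01_lc.CTrivialIsKTrivial

open Pool.Agent.TH676.CK (OptPlain OptPFree cx)
open Pool.Agent.Q316.KC (natStr avg)

/-- `μ` is C-trivial: the `μ`-average of `C` over the strings of length `n` is at most `C(n) + c`,
for all `n` and some constant `c`. -/
def CTrivial (U : List Bool →. List Bool) (μ : Measure (ℕ → Bool)) : Prop :=
  ∃ c : ℝ, ∀ n : ℕ, avg μ (cx U) n ≤ cx U (natStr n) + c

/-- `μ` is K-trivial: the `μ`-average of `K` over the strings of length `n` is at most `K(n) + c`,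
for all `n` and some constant `c`. -/
def KTrivial (V : List Bool →. List Bool) (μ : Measure (ℕ → Bool)) : Prop :=
  ∃ c : ℝ, ∀ n : ℕ, avg μ (cx V) n ≤ cx V (natStr n) + c

/-- **Every C-trivial measure is K-trivial** (for every choice of the optimal machines; such
machines exist). -/
theorem result : (∃ U : List Bool →. List Bool, OptPlain U) ∧
    (∃ V : List Bool →. List Bool, OptPFree V) ∧
    ∀ U V : List Bool →. List Bool, OptPlain U → OptPFree V →
      ∀ μ : Measure (ℕ → Bool), IsProbabilityMeasure μ → CTrivial U μ → KTrivial V μ := by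
  refine ⟨Pool.Agent.TH676.CK.exists_optPlain, Pool.Agent.TH676.CK.exists_optPFree, ?_⟩
  intro U V hU hV μ hμ h
  exact Pool.Agent.Q316.KC.triv
    (Pool.Agent.TH676.CK.isKP_cx hV natStr Pool.Agent.Q316.KC.computable_natStr)
    (Pool.Agent.TH676.CK.isPlain_cx hU natStr Pool.Agent.Q316.KC.computable_natStr) μ h

end Pool.Agent.Results.MP_616e01_lc.CTrivialIsKTrivial
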